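import Mathlib

set_option autoImplicit false

open MeasureTheory Metric Set Filter Topology
open scoped ENNReal ContDiff

namespace Pool.Agent.Results.MP_cf1990_gt.Disproof

/-- `R^{2n}` with its Euclidean norm; the coordinates of `z` are `x_j = z (j, 0)` and
`y_j = z (j, 1)`, for `j : Fin n`. -/
abbrev E (n : ℕ) : Type := EuclideanSpace ℝ (Fin n × Fin 2)

/-- The standard symplectic form `ω₀ = ∑ dx_j ∧ dy_j` of `R^{2n}`. -/
def omega {n : ℕ} (u v : E n) : ℝ :=
  ∑ j : Fin n, (u (j, 0) * v (j, 1) - u (j, 1) * v (j, 0))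

/-- `ψ` is a symplectomorphism of `R^{2n}`: a smooth diffeomorphism of `R^{2n}` onto itself
whose derivative at every point preserves `ω₀`. -/
def IsSymplecto {n : ℕ} (ψ : E n ≃ E n) : Prop :=
  ContDiff ℝ ∞ ψ ∧ ContDiff ℝ ∞ ψ.symm ∧
    ∀ x u v : E n, omega (fderiv ℝ ψ x u) (fderiv ℝ ψ x v) = omega u v

/-- The closed symplectic cylinder `Z^{2n}(r) = B²(r) × R^{2n-2}`. -/
def cyl {n : ℕ} (hn : 0 < n) (r : ℝ) : Set (E n) :=
  {z | z (⟨0, hn⟩, 0) ^ 2 + z (⟨0, hn⟩, 1) ^ 2 ≤ r ^ 2}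

/-- `c` is a normalised symplectic capacity on `R^{2n}` (defined on all subsets). -/
structure IsNormalisedCapacity {n : ℕ} (hn : 0 < n) (c : Set (E n) → ℝ≥0∞) : Prop where
  /-- monotonicity under symplectomorphisms of `R^{2n}` -/
  monotone : ∀ A B : Set (E n), (∃ ψ : E n ≃ E n, IsSymplecto ψ ∧ ψ '' A ⊆ B) → c A ≤ c B
  /-- conformality -/
  conformal : ∀ (s : ℝ) (A : Set (E n)), s ≠ 0 →
    c ((fun z => s • z) '' A) = ENNReal.ofReal (s ^ 2) * c A
  /-- normalisation on the closed Euclidean balls -/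
  ball : ∀ r : ℝ, 0 < r → c (closedBall 0 r) = ENNReal.ofReal (Real.pi * r ^ 2)
  /-- normalisation on the closed symplectic cylinders -/
  cylinder : ∀ r : ℝ, 0 < r → c (cyl hn r) = ENNReal.ofReal (Real.pi * r ^ 2)

/-- The homeomorphism `φ` preserves the `c`-capacity of small open sets: every point has a
neighbourhood `U` such that `c (φ V) = c V` for every open `V ⊆ U`. -/
def PreservesSmall {n : ℕ} (c : Set (E n) → ℝ≥0∞) (φ : E n ≃ₜ E n) : Prop :=
  ∀ x : E n, ∃ U ∈ 𝓝 x, ∀ V : Set (E n), V ⊆ U → IsOpen V → c (φ '' V) = c V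

variable {n : ℕ}

/-- the form as a bilinear form -/
noncomputable def B (n : ℕ) : LinearMap.BilinForm ℝ (E n) :=
  LinearMap.mk₂ ℝ (fun u v => omega u v)
    (by intro a b c; simp only [omega, PiLp.add_apply]; rw [← Finset.sum_add_distrib]; exact Finset.sum_congr rfl fun _ _ => by ring)
    (by intro a b c; simp only [omega, PiLp.smul_apply, smul_eq_mul]; rw [Finset.mul_sum]; exact Finset.sum_congr rfl fun _ _ => by ring)
    (by intro a b c; simp only [omega, PiLp.add_apply]; rw [← Finset.sum_add_distrib]; exact Finset.sum_congr rfl fun _ _ => by ring)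
    (by intro a b c; simp only [omega, PiLp.smul_apply, smul_eq_mul]; rw [Finset.mul_sum]; exact Finset.sum_congr rfl fun _ _ => by ring)

theorem B_apply (u v : E n) : B n u v = omega u v := rfl

theorem omega_single_right0 (u : E n) (j : Fin n) :
    omega u (EuclideanSpace.single (j, 0) (1 : ℝ)) = - u (j, 1) := by
  unfold omega
  rw [Finset.sum_eq_single j]
  · simp
  · intro b _ hb
    have h1 : EuclideanSpace.single (j, (0 : Fin 2)) (1 : ℝ) (b, 1) = 0 := by simp
    have h2 : EuclideanSpace.single (j, (0 : Fin 2)) (1 : ℝ) (b, 0) = 0 := by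
      simp [hb]
    rw [h1, h2]; ring
  · simp

theorem omega_single_right1 (u : E n) (j : Fin n) :
    omega u (EuclideanSpace.single (j, 1) (1 : ℝ)) = u (j, 0) := by
  unfold omega
  rw [Finset.sum_eq_single j]
  · simp
  · intro b _ hb
    have h1 : EuclideanSpace.single (j, (1 : Fin 2)) (1 : ℝ) (b, 1) = 0 := by simp [hb]
    have h2 : EuclideanSpace.single (j, (1 : Fin 2)) (1 : ℝ) (b, 0) = 0 := by
      simp
    rw [h1, h2]; ring
  · simp

theorem omega_antisymm (u v : E n) : omega u v = - omega v u := by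
  unfold omega
  rw [← Finset.sum_neg_distrib]
  exact Finset.sum_congr rfl fun _ _ => by ring

theorem nondeg : (B n).Nondegenerate := by
  have key : ∀ u : E n, (∀ v : E n, omega u v = 0) → u = 0 := by
    intro u hu
    ext ⟨j, a⟩
    fin_cases a
    · have := hu (EuclideanSpace.single (j, 1) (1 : ℝ))
      rw [omega_single_right1] at this
      simpa using this
    · have := hu (EuclideanSpace.single (j, 0) (1 : ℝ))
      rw [omega_single_right0] at this
      simpa using this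
  refine ⟨fun u hu => key u hu, fun u hu => key u fun v => ?_⟩
  rw [omega_antisymm, ← B_apply, hu v, neg_zero]

theorem abs_det_eq_one (L : E n →L[ℝ] E n) (h : ∀ u v, omega (L u) (L v) = omega u v) :
    |L.det| = 1 := by
  classical
  let b := (EuclideanSpace.basisFun (Fin n × Fin 2) ℝ).toBasis
  have h1 : (B n).comp (L : E n →ₗ[ℝ] E n) (L : E n →ₗ[ℝ] E n) = B n := by
    refine LinearMap.ext fun u => LinearMap.ext fun v => ?_
    rw [LinearMap.BilinForm.comp_apply, B_apply, B_apply]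
    exact h u v
  have h2 := LinearMap.BilinForm.toMatrix_comp b b (B n) (L : E n →ₗ[ℝ] E n) (L : E n →ₗ[ℝ] E n)
  rw [h1] at h2
  have h3 := congrArg Matrix.det h2
  rw [Matrix.det_mul, Matrix.det_mul, Matrix.det_transpose, LinearMap.det_toMatrix] at h3
  have h4 : ((LinearMap.BilinForm.toMatrix b) (B n)).det ≠ 0 :=
    (LinearMap.BilinForm.nondegenerate_iff_det_ne_zero b).mp nondeg
  have h5 : (L.det) ^ 2 = 1 := by
    have h6 : (LinearMap.BilinForm.toMatrix b (B n)).det *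
        (LinearMap.det (L : E n →ₗ[ℝ] E n) ^ 2 - 1) = 0 := by
      linear_combination -h3
    rcases mul_eq_zero.mp h6 with h7 | h7
    · exact absurd h7 h4
    · have : L.det = LinearMap.det (L : E n →ₗ[ℝ] E n) := rfl
      rw [this]; linarith
  have h8 : |L.det| ^ 2 = 1 := by rw [sq_abs]; exact h5
  have h9 := abs_nonneg L.det
  nlinarith

/-- symplectomorphisms preserve Lebesgue measure -/
theorem volume_image {ψ : E n ≃ E n} (hψ : IsSymplecto ψ) {s : Set (E n)}
    (hs : MeasurableSet s) : volume (ψ '' s) = volume s := by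
  have h := lintegral_abs_det_fderiv_eq_addHaar_image (volume : Measure (E n)) hs
    (f := ψ) (f' := fun x => fderiv ℝ ψ x)
    (fun x _ => ((hψ.1.differentiable (by simp)) x).hasFDerivAt.hasFDerivWithinAt)
    ψ.injective.injOn
  rw [← h]
  simp [abs_det_eq_one _ (hψ.2.2 _)]

theorem IsSymplecto.comp {ψ χ : E n ≃ E n} (hψ : IsSymplecto ψ) (hχ : IsSymplecto χ) :
    IsSymplecto (ψ.trans χ) := by
  refine ⟨hχ.1.comp hψ.1, hψ.2.1.comp hχ.2.1, fun x u v => ?_⟩
  have h1 : fderiv ℝ (ψ.trans χ) x = (fderiv ℝ χ (ψ x)).comp (fderiv ℝ ψ x) := by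
    have : (⇑(ψ.trans χ)) = χ ∘ ψ := rfl
    rw [this]
    exact fderiv_comp x ((hχ.1.differentiable (by simp)) _) ((hψ.1.differentiable (by simp)) _)
  rw [h1]
  simp only [ContinuousLinearMap.comp_apply]
  rw [hχ.2.2, hψ.2.2]

theorem IsSymplecto.refl : IsSymplecto (Equiv.refl (E n)) := by
  refine ⟨contDiff_id, contDiff_id, fun x u v => ?_⟩
  have : (⇑(Equiv.refl (E n))) = id := rfl
  rw [this, fderiv_id]
  rfl

/-- conjugation by a homothety -/
noncomputable def conjS (s : ℝ) (hs : s ≠ 0) (ψ : E n ≃ E n) : E n ≃ E n where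
  toFun z := s • ψ (s⁻¹ • z)
  invFun z := s • ψ.symm (s⁻¹ • z)
  left_inv z := by simp [smul_smul, hs]
  right_inv z := by simp [smul_smul, hs]

theorem omega_smul (s : ℝ) (u v : E n) : omega (s • u) v = s * omega u v := by
  rw [← B_apply, ← B_apply, map_smul]; rfl

theorem omega_smul' (s : ℝ) (u v : E n) : omega u (s • v) = s * omega u v := by
  rw [← B_apply, ← B_apply, map_smul]; rfl

theorem omega_add (u u' v : E n) : omega (u + u') v = omega u v + omega u' v := by
  rw [← B_apply, ← B_apply, ← B_apply, map_add]; rfl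

theorem omega_add' (u v v' : E n) : omega u (v + v') = omega u v + omega u v' := by
  rw [← B_apply, ← B_apply, ← B_apply, map_add]

theorem IsSymplecto.conj {s : ℝ} (hs : s ≠ 0) {ψ : E n ≃ E n} (hψ : IsSymplecto ψ) :
    IsSymplecto (conjS s hs ψ) := by
  refine ⟨?_, ?_, fun x u v => ?_⟩
  · exact (hψ.1.comp (contDiff_id.const_smul s⁻¹)).const_smul s
  · exact (hψ.2.1.comp (contDiff_id.const_smul s⁻¹)).const_smul s
  · have h1 : fderiv ℝ (conjS s hs ψ) x = s • (fderiv ℝ ψ (s⁻¹ • x)).comp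
        (s⁻¹ • ContinuousLinearMap.id ℝ (E n)) := by
      have h2 : HasFDerivAt ψ (fderiv ℝ ψ (s⁻¹ • x)) (s⁻¹ • x) :=
        ((hψ.1.differentiable (by simp)) _).hasFDerivAt
      have h3 : HasFDerivAt (fun z : E n => s⁻¹ • z) (s⁻¹ • ContinuousLinearMap.id ℝ (E n)) x :=
        (hasFDerivAt_id x).const_smul s⁻¹
      exact ((h2.comp x h3).const_smul s).fderiv
    rw [h1]
    simp only [smul_apply, ContinuousLinearMap.comp_apply,
      ContinuousLinearMap.id_apply]
    rw [map_smul, map_smul, omega_smul, omega_smul', omega_smul, omega_smul', hψ.2.2]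
    field_simp

/-- the shear `z ↦ z + g (x₁) ∂/∂y₁` -/
noncomputable def shear (hn : 0 < n) (g : ℝ → ℝ) : E n ≃ E n where
  toFun z := z + g (z (⟨0, hn⟩, 0)) • EuclideanSpace.single (⟨0, hn⟩, 1) (1 : ℝ)
  invFun z := z - g (z (⟨0, hn⟩, 0)) • EuclideanSpace.single (⟨0, hn⟩, 1) (1 : ℝ)
  left_inv z := by simp
  right_inv z := by simp

theorem IsSymplecto.shear (hn : 0 < n) {g : ℝ → ℝ} (hg : ContDiff ℝ ∞ g) :
    IsSymplecto (shear hn g) := by
  have hc : ContDiff ℝ ∞ (fun z : E n => z (⟨0, hn⟩, 0)) :=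
    (EuclideanSpace.proj (𝕜 := ℝ) ((⟨0, hn⟩, 0) : Fin n × Fin 2)).contDiff
  have hd : ∀ x : E n, HasFDerivAt (fun z : E n => z (⟨0, hn⟩, 0))
      (EuclideanSpace.proj (𝕜 := ℝ) ((⟨0, hn⟩, 0) : Fin n × Fin 2)) x := fun x =>
    (EuclideanSpace.proj (𝕜 := ℝ) ((⟨0, hn⟩, 0) : Fin n × Fin 2)).hasFDerivAt
  refine ⟨?_, ?_, fun x u v => ?_⟩
  · exact contDiff_id.add ((hg.comp hc).smul contDiff_const)
  · exact contDiff_id.sub ((hg.comp hc).smul contDiff_const)
  · have h2 : HasDerivAt g (deriv g (x (⟨0, hn⟩, 0))) (x (⟨0, hn⟩, 0)) :=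
      ((hg.differentiable (by simp)) _).hasDerivAt
    have h3 := h2.comp_hasFDerivAt x (hd x)
    have h4 := (hasFDerivAt_id x).add (h3.smul_const (EuclideanSpace.single (⟨0, hn⟩, 1) (1 : ℝ)))
    have h5 : fderiv ℝ (Disproof.shear hn g) x = _ := h4.fderiv
    have hp : ∀ u : E n, (EuclideanSpace.proj (𝕜 := ℝ) ((⟨0, hn⟩, 0) : Fin n × Fin 2)) u =
      u (⟨0, hn⟩, 0) := fun _ => rfl
    rw [h5]
    have h6 : ∀ u : E n, (ContinuousLinearMap.id ℝ (E n) +
      (deriv g (x (⟨0, hn⟩, 0)) • EuclideanSpace.proj (𝕜 := ℝ)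
        ((⟨0, hn⟩, 0) : Fin n × Fin 2)).smulRight
        (EuclideanSpace.single ((⟨0, hn⟩, 1) : Fin n × Fin 2) (1 : ℝ) : E n)) u =
      u + (deriv g (x (⟨0, hn⟩, 0)) * u (⟨0, hn⟩, 0)) •
        (EuclideanSpace.single ((⟨0, hn⟩, 1) : Fin n × Fin 2) (1 : ℝ) : E n) :=
      fun _ => rfl
    rw [h6, h6, omega_add, omega_add', omega_add', omega_smul, omega_smul', omega_smul,
      omega_smul', omega_single_right1, omega_antisymm (EuclideanSpace.single ((⟨0, hn⟩, 1) : Fin n × Fin 2) (1 : ℝ)) v,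
      omega_single_right1, omega_single_right1]
    simp
    ring

/-- Gromov width -/
noncomputable def width (A : Set (E n)) : ℝ≥0∞ :=
  ⨆ (ρ : ℝ) (_ : 0 ≤ ρ ∧ ∃ ψ : E n ≃ E n, IsSymplecto ψ ∧ ψ '' closedBall 0 ρ ⊆ A),
    ENNReal.ofReal (Real.pi * ρ ^ 2)

theorem le_width {A : Set (E n)} {ρ : ℝ} (h0 : 0 ≤ ρ) {ψ : E n ≃ E n} (hψ : IsSymplecto ψ)
    (h : ψ '' closedBall 0 ρ ⊆ A) : ENNReal.ofReal (Real.pi * ρ ^ 2) ≤ width A :=
  le_iSup₂_of_le ρ ⟨h0, ψ, hψ, h⟩ le_rfl

theorem width_le {A : Set (E n)} {C : ℝ≥0∞} (h : ∀ (ρ : ℝ), 0 ≤ ρ → ∀ ψ : E n ≃ E n,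
    IsSymplecto ψ → ψ '' closedBall 0 ρ ⊆ A → ENNReal.ofReal (Real.pi * ρ ^ 2) ≤ C) :
    width A ≤ C :=
  iSup₂_le fun ρ ⟨h0, ψ, hψ, h1⟩ => h ρ h0 ψ hψ h1

theorem width_mono {A B : Set (E n)} (h : ∃ ψ : E n ≃ E n, IsSymplecto ψ ∧ ψ '' A ⊆ B) :
    width A ≤ width B := by
  obtain ⟨χ, hχ, hAB⟩ := h
  refine width_le fun ρ h0 ψ hψ h1 => le_width h0 (hψ.comp hχ) ?_
  rw [Equiv.coe_trans, image_comp]
  exact (image_mono h1).trans hAB

theorem width_conf_le (s : ℝ) (hs : s ≠ 0) (A : Set (E n)) :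
    ENNReal.ofReal (s ^ 2) * width A ≤ width ((fun z => s • z) '' A) := by
  rw [width, ENNReal.mul_iSup]
  refine iSup_le fun ρ => ?_
  rw [ENNReal.mul_iSup]
  refine iSup_le fun ⟨h0, ψ, hψ, h1⟩ => ?_
  have h2 : ENNReal.ofReal (s ^ 2) * ENNReal.ofReal (Real.pi * ρ ^ 2) =
      ENNReal.ofReal (Real.pi * (|s| * ρ) ^ 2) := by
    rw [← ENNReal.ofReal_mul (by positivity), mul_pow, sq_abs]
    congr 1; ring
  rw [h2]
  refine le_width (by positivity) (hψ.conj hs) ?_
  rintro _ ⟨z, hz, rfl⟩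
  refine ⟨ψ (s⁻¹ • z), h1 ⟨s⁻¹ • z, ?_, rfl⟩, rfl⟩
  rw [mem_closedBall_zero_iff] at hz ⊢
  rw [norm_smul, norm_inv, Real.norm_eq_abs]
  have : 0 < |s| := abs_pos.mpr hs
  rw [inv_mul_le_iff₀ this]
  exact hz

theorem width_conf (s : ℝ) (hs : s ≠ 0) (A : Set (E n)) :
    width ((fun z => s • z) '' A) = ENNReal.ofReal (s ^ 2) * width A := by
  refine le_antisymm ?_ (width_conf_le s hs A)
  have h1 := width_conf_le s⁻¹ (inv_ne_zero hs) ((fun z => s • z) '' A)
  have h2 : (fun z : E n => s⁻¹ • z) '' ((fun z => s • z) '' A) = A := by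
    rw [← image_comp]
    convert image_id A
    ext z
    simp [hs]
  rw [h2] at h1
  calc width ((fun z => s • z) '' A)
      = ENNReal.ofReal (s ^ 2) * (ENNReal.ofReal (s⁻¹ ^ 2) * width ((fun z => s • z) '' A)) := by
        rw [← mul_assoc, ← ENNReal.ofReal_mul (by positivity), ← mul_pow, mul_inv_cancel₀ hs]
        simp
    _ ≤ _ := by gcongr

/-- the set of points whose normalised volume radius is not an integer -/
def V0 (n : ℕ) : Set (E n) := {z | ∀ k : ℕ, ‖z‖ ^ (2 * n) ≠ (k : ℝ)}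

theorem isOpen_V0 : IsOpen (V0 n) := by
  have h : V0 n = (fun z : E n => ‖z‖ ^ (2 * n)) ⁻¹' (Set.range (Nat.cast : ℕ → ℝ))ᶜ := by
    ext z
    simp only [V0, mem_ofPred_eq, mem_preimage, mem_compl_iff, mem_range, not_exists]
    exact ⟨fun h k hk => h k hk.symm, fun h k hk => h k hk.symm⟩
  rw [h]
  exact (Nat.isClosedEmbedding_coe_real.isClosed_range.isOpen_compl).preimage (by fun_prop)

theorem dense_V0 (hn : 0 < n) : Dense (V0 n) := by
  have : Nonempty (Fin n × Fin 2) := ⟨(⟨0, hn⟩, 0)⟩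
  have h : ∀ᵐ z : E n, ∀ k : ℕ, ‖z‖ ^ (2 * n) ≠ (k : ℝ) := by
    rw [ae_all_iff]
    intro k
    rw [ae_iff]
    refine measure_mono_null ?_ (Measure.addHaar_sphere volume (0 : E n) ((k : ℝ) ^ (((2 * n : ℕ) : ℝ)⁻¹)))
    intro z hz
    simp only [ne_eq, not_not, mem_ofPred_eq] at hz
    rw [mem_sphere_zero_iff_norm, ← hz, Real.pow_rpow_inv_natCast (norm_nonneg _) (by omega)]
  exact Measure.dense_of_ae h

/-- sets containing a symplectic copy of a homothetic copy of `V0` -/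
def Big (A : Set (E n)) : Prop :=
  ∃ (s : ℝ) (ψ : E n ≃ E n), s ≠ 0 ∧ IsSymplecto ψ ∧ ψ '' ((fun z => s • z) '' V0 n) ⊆ A

theorem Big.dense (hn : 0 < n) {A : Set (E n)} (h : Big A) : Dense A := by
  obtain ⟨s, ψ, hs, hψ, h1⟩ := h
  refine Dense.mono h1 ?_
  refine DenseRange.dense_image ψ.surjective.denseRange hψ.1.continuous ?_
  refine DenseRange.dense_image (Function.Surjective.denseRange ?_) (by fun_prop) (dense_V0 hn)
  intro z
  exact ⟨s⁻¹ • z, by simp [smul_smul, hs]⟩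

theorem Big.mono {A A' : Set (E n)} (h : Big A) {χ : E n ≃ E n} (hχ : IsSymplecto χ)
    (h' : χ '' A ⊆ A') : Big A' := by
  obtain ⟨s, ψ, hs, hψ, h1⟩ := h
  refine ⟨s, ψ.trans χ, hs, hψ.comp hχ, ?_⟩
  rw [Equiv.coe_trans, image_comp]
  exact (image_mono h1).trans h'

theorem Big.smul {A : Set (E n)} (h : Big A) (r : ℝ) (hr : r ≠ 0) :
    Big ((fun z => r • z) '' A) := by
  obtain ⟨s, ψ, hs, hψ, h1⟩ := h
  refine ⟨r * s, conjS r hr ψ, mul_ne_zero hr hs, hψ.conj hr, ?_⟩
  rintro _ ⟨_, ⟨z, hz, rfl⟩, rfl⟩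
  refine ⟨ψ (s • z), h1 ⟨_, ⟨z, hz, rfl⟩, rfl⟩, ?_⟩
  simp [conjS, smul_smul, hr]

/-- the capacity -/
noncomputable def cap (A : Set (E n)) : ℝ≥0∞ := by
  classical exact if Big A then ⊤ else width A

theorem cap_of_big {A : Set (E n)} (h : Big A) : cap A = ⊤ := by
  unfold cap; rw [if_pos h]

theorem cap_of_not_big {A : Set (E n)} (h : ¬ Big A) : cap A = width A := by
  unfold cap; rw [if_neg h]

theorem not_big_of_subset (hn : 0 < n) {A K : Set (E n)} (hAK : A ⊆ K) (hK : IsClosed K)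
    (h : K ≠ univ) : ¬ Big A := by
  intro hb
  apply h
  have := (hb.dense hn).mono hAK
  rw [← hK.closure_eq, this.closure_eq]

theorem not_big_of_bounded (hn : 0 < n) {A : Set (E n)} (h : Bornology.IsBounded A) :
    ¬ Big A := by
  obtain ⟨R, hR⟩ := h.subset_closedBall 0
  refine not_big_of_subset hn hR isClosed_closedBall ?_
  intro hu
  have h1 : EuclideanSpace.single ((⟨0, hn⟩, 0) : Fin n × Fin 2) (|R| + 1) ∈ closedBall (0 : E n) R := by
    rw [hu]; trivial
  rw [mem_closedBall_zero_iff, PiLp.norm_single, Real.norm_eq_abs] at h1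
  have := le_abs_self R
  rw [abs_of_nonneg (by positivity)] at h1
  linarith

theorem cyl_closed (hn : 0 < n) (r : ℝ) : IsClosed (cyl hn r) := by
  unfold cyl
  exact isClosed_le (by fun_prop) (by fun_prop)

theorem cyl_ne_univ (hn : 0 < n) (r : ℝ) : cyl hn r ≠ univ := by
  intro hu
  have h1 : EuclideanSpace.single ((⟨0, hn⟩, 0) : Fin n × Fin 2) (|r| + 1) ∈ cyl hn r := by
    rw [hu]; trivial
  simp only [cyl, mem_ofPred_eq] at h1
  simp at h1
  have h2 := sq_abs r
  have h3 := abs_nonneg r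
  nlinarith

/-- nonsqueezing property -/
def NS (hn : 0 < n) : Prop := ∀ ρ r : ℝ, 0 ≤ ρ → 0 < r → ∀ ψ : E n ≃ E n, IsSymplecto ψ →
  ψ '' closedBall 0 ρ ⊆ cyl hn r → ρ ≤ r

theorem ball_subset_cyl (hn : 0 < n) {r : ℝ} (hr : 0 ≤ r) : closedBall (0 : E n) r ⊆ cyl hn r := by
  intro z hz
  rw [mem_closedBall_zero_iff] at hz
  have h1 : ‖z‖ ^ 2 ≤ r ^ 2 := by
    have := norm_nonneg z
    nlinarith
  rw [EuclideanSpace.norm_sq_eq] at h1
  have h2 : z (⟨0, hn⟩, 0) ^ 2 + z (⟨0, hn⟩, 1) ^ 2 ≤ ∑ i, ‖z i‖ ^ 2 := by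
    rw [Fintype.sum_prod_type]
    refine le_trans ?_ (Finset.single_le_sum (f := fun j : Fin n => ∑ a : Fin 2, ‖z (j, a)‖ ^ 2)
      (fun j _ => Finset.sum_nonneg fun a _ => by positivity) (Finset.mem_univ (⟨0, hn⟩ : Fin n)))
    rw [Fin.sum_univ_two]
    simp
  exact h2.trans h1

theorem cap_normalised (hn : 0 < n) (hNS : NS hn) : IsNormalisedCapacity hn (cap (n := n)) := by
  have key : ∀ r : ℝ, 0 < r → width (cyl hn r) ≤ ENNReal.ofReal (Real.pi * r ^ 2) := by
    intro r hr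
    refine width_le fun ρ h0 ψ hψ h1 => ?_
    have := hNS ρ r h0 hr ψ hψ h1
    apply ENNReal.ofReal_le_ofReal
    have := Real.pi_pos
    gcongr
  have key2 : ∀ r : ℝ, 0 < r → ENNReal.ofReal (Real.pi * r ^ 2) ≤ width (closedBall (0 : E n) r) := by
    intro r hr
    exact le_width hr.le IsSymplecto.refl (by simp)
  have key3 : ∀ r : ℝ, 0 < r → width (closedBall (0 : E n) r) ≤ width (cyl hn r) := by
    intro r hr
    exact width_mono ⟨Equiv.refl _, IsSymplecto.refl, by simpa using ball_subset_cyl hn hr.le⟩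
  refine ⟨?_, ?_, ?_, ?_⟩
  · rintro A A' ⟨χ, hχ, h⟩
    by_cases hA' : Big A'
    · rw [cap_of_big hA']; exact le_top
    · have hA : ¬ Big A := fun hA => hA' (hA.mono hχ h)
      rw [cap_of_not_big hA, cap_of_not_big hA']
      exact width_mono ⟨χ, hχ, h⟩
  · intro s A hs
    by_cases hA : Big A
    · rw [cap_of_big hA, cap_of_big (hA.smul s hs), ENNReal.mul_top]
      simp only [ne_eq, ENNReal.ofReal_eq_zero, not_le]
      positivity
    · have hA' : ¬ Big ((fun z => s • z) '' A) := by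
        intro hb
        have := hb.smul s⁻¹ (inv_ne_zero hs)
        rw [← image_comp] at this
        apply hA
        convert this
        ext z
        simp [hs]
      rw [cap_of_not_big hA, cap_of_not_big hA', width_conf s hs]
  · intro r hr
    rw [cap_of_not_big (not_big_of_bounded hn isBounded_closedBall)]
    exact le_antisymm ((key3 r hr).trans (key r hr)) (key2 r hr)
  · intro r hr
    rw [cap_of_not_big (not_big_of_subset hn Subset.rfl (cyl_closed hn r) (cyl_ne_univ hn r))]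
    exact le_antisymm (key r hr) ((key2 r hr).trans (key3 r hr))


theorem continuous_shear (hn : 0 < n) {g : ℝ → ℝ} (hg : Continuous g) :
    Continuous (shear hn g) := by
  have : (⇑(shear hn g)) = fun z : E n => z + g (z (⟨0, hn⟩, 0)) •
    (EuclideanSpace.single ((⟨0, hn⟩, 1) : Fin n × Fin 2) (1 : ℝ) : E n) := rfl
  rw [this]
  fun_prop

theorem shear_symm (hn : 0 < n) (g : ℝ → ℝ) : (shear hn g).symm = shear hn (fun x => - g x) := by
  ext1 z
  show z - _ = z + _
  rw [neg_smul, sub_eq_add_neg]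

/-- the shear as a homeomorphism -/
noncomputable def shearHomeo (hn : 0 < n) (g : ℝ → ℝ) (hg : Continuous g) : E n ≃ₜ E n where
  toEquiv := shear hn g
  continuous_toFun := continuous_shear hn hg
  continuous_invFun := by
    show Continuous ((shear hn g).symm)
    rw [shear_symm]
    exact continuous_shear hn hg.neg

theorem width_shear_le (hn : 0 < n) {g : ℝ → ℝ} (hg : Continuous g)
    (happ : ∀ ε : ℝ, 0 < ε → ∃ f : ℝ → ℝ, ContDiff ℝ ∞ f ∧ ∀ x, |f x - g x| ≤ ε)
    {V : Set (E n)} (hV : IsOpen (shear hn g '' V)) : width V ≤ width (shear hn g '' V) := by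
  refine width_le fun ρ h0 ψ hψ h1 => ?_
  have hK : IsCompact (shear hn g '' (ψ '' closedBall 0 ρ)) :=
    ((isCompact_closedBall 0 ρ).image hψ.1.continuous).image (continuous_shear hn hg)
  obtain ⟨δ, hδ, hth⟩ := hK.exists_thickening_subset_open hV (image_mono h1)
  obtain ⟨f, hf, hfg⟩ := happ (δ / 2) (by positivity)
  refine le_width h0 (hψ.comp (IsSymplecto.shear hn hf)) ?_
  rintro _ ⟨z, hz, rfl⟩
  apply hth
  rw [mem_thickening_iff]
  refine ⟨shear hn g (ψ z), ⟨ψ z, ⟨z, hz, rfl⟩, rfl⟩, ?_⟩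
  have h2 : (ψ.trans (shear hn f)) z - shear hn g (ψ z) =
      (f (ψ z (⟨0, hn⟩, 0)) - g (ψ z (⟨0, hn⟩, 0))) •
      (EuclideanSpace.single ((⟨0, hn⟩, 1) : Fin n × Fin 2) (1 : ℝ) : E n) := by
    show (ψ z + f (ψ z (⟨0, hn⟩, 0)) • _) - (ψ z + g (ψ z (⟨0, hn⟩, 0)) • _) = _
    rw [sub_smul]; abel
  rw [dist_eq_norm, h2, norm_smul, PiLp.norm_single, Real.norm_eq_abs, norm_one, mul_one]
  have := hfg (ψ z (⟨0, hn⟩, 0))
  linarith

theorem smooth_sqrt (ε : ℝ) (hε : 0 < ε) : ContDiff ℝ ∞ (fun x : ℝ => Real.sqrt (x ^ 2 + ε ^ 2)) := by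
  apply ContDiff.sqrt
  · fun_prop
  · intro x; positivity

theorem sqrt_close (ε : ℝ) (hε : 0 < ε) (x : ℝ) : |Real.sqrt (x ^ 2 + ε ^ 2) - (|x|)| ≤ ε := by
  have h1 : |x| ≤ Real.sqrt (x ^ 2 + ε ^ 2) := by
    apply Real.le_sqrt_of_sq_le
    rw [sq_abs]; nlinarith
  have h2 : Real.sqrt (x ^ 2 + ε ^ 2) ≤ |x| + ε := by
    apply Real.sqrt_le_iff.mpr
    constructor
    · positivity
    · have := sq_abs x
      have := abs_nonneg x
      nlinarith
  rw [abs_le]
  constructor <;> linarith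

/-- the homeomorphism -/
noncomputable def phi (hn : 0 < n) : E n ≃ₜ E n := shearHomeo hn (fun x => |x|) continuous_abs

theorem width_phi (hn : 0 < n) {V : Set (E n)} (hV : IsOpen V) :
    width (phi hn '' V) = width V := by
  have h1 : IsOpen (phi hn '' V) := (phi hn).isOpenMap V hV
  apply le_antisymm
  · have h2 : shear hn (fun x => -|x|) '' (phi hn '' V) = V := by
      rw [← shear_symm]
      show (shear hn (fun x => |x|)).symm '' (shear hn (fun x => |x|) '' V) = V
      rw [← image_comp]; simp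
    have h3 := width_shear_le hn (g := fun x => -|x|) (by fun_prop) (fun ε hε =>
      ⟨fun x => -Real.sqrt (x ^ 2 + ε ^ 2), (smooth_sqrt ε hε).neg, fun x => by
        have := sqrt_close ε hε x
        rw [← abs_neg]; convert this using 2; ring⟩) (V := phi hn '' V) (by rw [h2]; exact hV)
    rw [h2] at h3
    exact h3
  · exact width_shear_le hn continuous_abs (fun ε hε =>
      ⟨fun x => Real.sqrt (x ^ 2 + ε ^ 2), smooth_sqrt ε hε, sqrt_close ε hε⟩) h1

theorem finrank_E : Module.finrank ℝ (E n) = 2 * n := by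
  simp [mul_comm]

theorem vol_ball {r : ℝ} (hr : 0 ≤ r) : (volume : Measure (E n)) (closedBall 0 r) =
    ENNReal.ofReal (r ^ (2 * n)) * volume (ball (0 : E n) 1) := by
  rw [Measure.addHaar_closedBall volume 0 hr, finrank_E]

theorem beta_pos : 0 < volume (ball (0 : E n) 1) := measure_ball_pos _ _ one_pos

theorem beta_lt_top : volume (ball (0 : E n) 1) < ⊤ := measure_ball_lt_top

theorem le_of_vol (hn : 0 < n) {ρ r : ℝ} (h0 : 0 ≤ ρ) (hr : 0 ≤ r)
    (h : volume (closedBall (0 : E n) ρ) ≤ ENNReal.ofReal (r ^ (2 * n)) * volume (ball (0 : E n) 1)) :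
    ρ ≤ r := by
  rw [vol_ball h0, ENNReal.mul_le_mul_iff_left beta_pos.ne' beta_lt_top.ne,
    ENNReal.ofReal_le_ofReal_iff (by positivity)] at h
  exact (pow_le_pow_iff_left₀ h0 hr (by omega)).mp h

theorem NS_one : NS (n := 1) one_pos := by
  intro ρ r h0 hr ψ hψ h
  apply le_of_vol one_pos h0 hr.le
  rw [← volume_image hψ measurableSet_closedBall, ← vol_ball hr.le]
  refine measure_mono (h.trans ?_)
  intro z hz
  rw [mem_closedBall_zero_iff]
  simp only [cyl, mem_ofPred_eq] at hz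
  have h1 : ‖z‖ ^ 2 = z (⟨0, one_pos⟩, 0) ^ 2 + z (⟨0, one_pos⟩, 1) ^ 2 := by
    rw [EuclideanSpace.norm_sq_eq, Fintype.sum_prod_type]
    simp
  rw [← h1] at hz
  exact (pow_le_pow_iff_left₀ (norm_nonneg z) hr.le two_ne_zero).mp hz

theorem shell_vol (hn : 0 < n) (k : ℕ) :
    volume {z : E n | (k : ℝ) < ‖z‖ ^ (2 * n) ∧ ‖z‖ ^ (2 * n) < (k : ℝ) + 1} ≤
      volume (ball (0 : E n) 1) := by
  set r : ℝ := (k : ℝ) ^ (((2 * n : ℕ) : ℝ)⁻¹) with hr
  set R : ℝ := ((k : ℝ) + 1) ^ (((2 * n : ℕ) : ℝ)⁻¹) with hR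
  have hr0 : 0 ≤ r := by positivity
  have hR0 : 0 ≤ R := by positivity
  have hrk : r ^ (2 * n) = k := Real.rpow_inv_natCast_pow (by positivity) (by omega)
  have hRk : R ^ (2 * n) = (k : ℝ) + 1 := Real.rpow_inv_natCast_pow (by positivity) (by omega)
  have hsub : {z : E n | (k : ℝ) < ‖z‖ ^ (2 * n) ∧ ‖z‖ ^ (2 * n) < (k : ℝ) + 1} ⊆
      closedBall 0 R \ closedBall 0 r := by
    rintro z ⟨h1, h2⟩
    rw [← hrk] at h1
    rw [← hRk] at h2
    refine ⟨?_, ?_⟩
    · rw [mem_closedBall_zero_iff]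
      exact ((pow_lt_pow_iff_left₀ (norm_nonneg z) hR0 (by omega)).mp h2).le
    · rw [mem_closedBall_zero_iff, not_le]
      exact (pow_lt_pow_iff_left₀ hr0 (norm_nonneg z) (by omega)).mp h1
  refine (measure_mono hsub).trans ?_
  have hrR : closedBall (0 : E n) r ⊆ closedBall 0 R := by
    apply closedBall_subset_closedBall
    refine (pow_le_pow_iff_left₀ hr0 hR0 (n := 2 * n) (by omega)).mp ?_
    rw [hrk, hRk]; linarith
  rw [measure_sdiff hrR measurableSet_closedBall.nullMeasurableSet measure_closedBall_lt_top.ne,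
    vol_ball hR0, vol_ball hr0, hrk, hRk, ← ENNReal.sub_mul (fun _ _ => beta_lt_top.ne),
    ← ENNReal.ofReal_sub _ (by positivity)]
  simp

theorem width_V0 (hn : 0 < n) : width (V0 n) ≤ ENNReal.ofReal Real.pi := by
  refine width_le fun ρ h0 ψ hψ h1 => ?_
  have hρ : ρ ≤ 1 := by
    apply le_of_vol hn h0 zero_le_one
    rw [one_pow, ENNReal.ofReal_one, one_mul, ← volume_image hψ measurableSet_closedBall]
    set S := ψ '' closedBall 0 ρ with hS
    have hconn : IsPreconnected S :=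
      (convex_closedBall (0 : E n) ρ).isPreconnected.image _ hψ.1.continuous.continuousOn
    have himg : IsPreconnected ((fun z : E n => ‖z‖ ^ (2 * n)) '' S) :=
      hconn.image _ (by fun_prop)
    have hord := himg.ordConnected
    set z0 : E n := ψ 0 with hz0
    have hz0S : z0 ∈ S := ⟨0, by simp [h0], rfl⟩
    set k : ℕ := ⌊‖z0‖ ^ (2 * n)⌋₊ with hk
    have hk1 : (k : ℝ) ≤ ‖z0‖ ^ (2 * n) := Nat.floor_le (by positivity)
    have hk2 : ‖z0‖ ^ (2 * n) < (k : ℝ) + 1 := Nat.lt_floor_add_one _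
    refine (measure_mono ?_).trans (shell_vol hn k)
    intro z hz
    have hno : ∀ m : ℕ, (m : ℝ) ∉ (fun z : E n => ‖z‖ ^ (2 * n)) '' S := by
      rintro m ⟨w, hw, hwm⟩
      exact h1 hw m hwm
    refine ⟨?_, ?_⟩
    · by_contra hlt
      push Not at hlt
      exact hno k (hord.out ⟨z, hz, rfl⟩ ⟨z0, hz0S, rfl⟩ ⟨hlt, hk1⟩)
    · by_contra hlt
      push Not at hlt
      have := hno (k + 1)
      push_cast at this
      exact this (hord.out ⟨z0, hz0S, rfl⟩ ⟨z, hz, rfl⟩ ⟨hk2.le, hlt⟩)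
  apply ENNReal.ofReal_le_ofReal
  have h2 : ρ ^ 2 ≤ 1 := by nlinarith
  have := Real.pi_pos
  nlinarith


theorem deriv_zero_of_const {F : E n → ℝ} (hFd : Differentiable ℝ F) {c : ℝ → E n} {v : E n}
    {a b : ℝ} (hab : a < b) (h0 : (0 : ℝ) ∈ Icc a b) (hc : HasDerivAt c v 0)
    (hconst : ∀ t ∈ Icc a b, F (c t) = F (c 0)) : fderiv ℝ F (c 0) v = 0 := by
  have h1 : HasDerivAt (F ∘ c) (fderiv ℝ F (c 0) v) 0 :=
    (hFd (c 0)).hasFDerivAt.comp_hasDerivAt 0 hc
  have h2 : HasDerivWithinAt (F ∘ c) (fderiv ℝ F (c 0) v) (Icc a b) 0 := h1.hasDerivWithinAt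
  have h3 : HasDerivWithinAt (F ∘ c) 0 (Icc a b) 0 :=
    (hasDerivWithinAt_const (0 : ℝ) (Icc a b) (F (c 0))).congr (fun t ht => hconst t ht) rfl
  exact (uniqueDiffOn_Icc hab 0 h0).eq_deriv _ h2 h3

theorem not_big_phi (hn : 0 < n) : ¬ Big (phi hn '' V0 n) := by
  rintro ⟨s, ψ, hs, hψ, hsub⟩
  classical
  -- coordinates
  set i0 : Fin n × Fin 2 := (⟨0, hn⟩, 0) with hi0
  set i1 : Fin n × Fin 2 := (⟨0, hn⟩, 1) with hi1
  have hi01 : i0 ≠ i1 := by simp [hi0, hi1]
  set e : Fin n × Fin 2 → E n := fun i => EuclideanSpace.single i (1 : ℝ) with he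
  have hphi : ∀ z : E n, phi hn z = z + |z i0| • e i1 := fun z => rfl
  set p : E n := e i1 with hp
  -- the function F
  set F : E n → ℝ := fun w => (‖s⁻¹ • ψ.symm w‖ ^ 2) ^ n with hF
  have hFsm : ContDiff ℝ ∞ F := ((hψ.2.1.const_smul s⁻¹).norm_sq ℝ).pow n
  have hFd : Differentiable ℝ F := hFsm.differentiable (by simp)
  have hFval : ∀ z : E n, z ∉ V0 n → ∃ k : ℕ, F (phi hn z) = k := by
    intro z hz
    have h1 : s⁻¹ • ψ.symm (phi hn z) ∉ V0 n := by
      intro h2
      have h3 : phi hn z ∈ ψ '' ((fun z => s • z) '' V0 n) :=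
        ⟨ψ.symm (phi hn z), ⟨_, h2, by simp [smul_smul, hs]⟩, by simp⟩
      obtain ⟨z', hz', h4⟩ := hsub h3
      rw [(phi hn).injective h4] at hz'
      exact hz hz'
    simp only [V0, mem_ofPred_eq, not_forall, not_not] at h1
    obtain ⟨k, hk⟩ := h1
    exact ⟨k, by rw [hF]; simp only; rw [← pow_mul]; exact hk⟩
  have hunit : ∀ z : E n, ‖z‖ = 1 → z ∉ V0 n := by
    intro z hz h
    exact h 1 (by rw [hz]; simp)
  -- constancy along curves of unit vectors
  have hconst : ∀ γ : ℝ → E n, Continuous γ → (∀ t, ‖γ t‖ = 1) → ∀ t t' : ℝ,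
      F (phi hn (γ t)) = F (phi hn (γ t')) := by
    intro γ hγ hγ1 t t'
    have hc : Continuous fun t => F (phi hn (γ t)) :=
      hFsm.continuous.comp ((phi hn).continuous.comp hγ)
    have hpre : IsPreconnected (Set.range fun t => F (phi hn (γ t))) :=
      isPreconnected_range hc
    have hord := hpre.ordConnected
    by_contra hne
    rcases lt_or_gt_of_ne hne with hlt | hlt
    · obtain ⟨a, ha⟩ := hFval _ (hunit _ (hγ1 t))
      obtain ⟨b, hb⟩ := hFval _ (hunit _ (hγ1 t'))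
      have h1 := hord.out ⟨t, rfl⟩ ⟨t', rfl⟩
      rw [ha, hb] at hlt
      simp only [ha, hb] at h1
      have hab : (a : ℝ) + 1 ≤ b := by exact_mod_cast hlt
      obtain ⟨u, hu⟩ := h1 (show (a : ℝ) + 1 / 2 ∈ Icc (a : ℝ) b from ⟨by linarith, by linarith⟩)
      obtain ⟨d, hd⟩ := hFval _ (hunit _ (hγ1 u))
      simp only at hu
      rw [hd] at hu
      have h2 : (2 * d : ℤ) = 2 * a + 1 := by
        have : (2 * d : ℝ) = 2 * a + 1 := by linarith
        exact_mod_cast this
      omega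
    · obtain ⟨a, ha⟩ := hFval _ (hunit _ (hγ1 t'))
      obtain ⟨b, hb⟩ := hFval _ (hunit _ (hγ1 t))
      have h1 := hord.out ⟨t', rfl⟩ ⟨t, rfl⟩
      rw [ha, hb] at hlt
      simp only [ha, hb] at h1
      have hab : (a : ℝ) + 1 ≤ b := by exact_mod_cast hlt
      obtain ⟨u, hu⟩ := h1 (show (a : ℝ) + 1 / 2 ∈ Icc (a : ℝ) b from ⟨by linarith, by linarith⟩)
      obtain ⟨d, hd⟩ := hFval _ (hunit _ (hγ1 u))
      simp only at hu
      rw [hd] at hu
      have h2 : (2 * d : ℤ) = 2 * a + 1 := by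
        have : (2 * d : ℝ) = 2 * a + 1 := by linarith
        exact_mod_cast this
      omega
  -- the basic great circles
  have hnorm : ∀ i : Fin n × Fin 2, i ≠ i1 → ∀ t : ℝ,
      ‖Real.sin t • e i + Real.cos t • e i1‖ = 1 := by
    intro i hi t
    have h : ‖Real.sin t • e i + Real.cos t • e i1‖ ^ 2 = 1 := by
      have hin : inner ℝ (e i) (e i1) = (0 : ℝ) := by
        simp only [he]
        rw [EuclideanSpace.inner_single_left]
        simp [hi]
      rw [norm_add_sq_real, norm_smul, norm_smul, inner_smul_left, inner_smul_right, hin]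
      simp only [he, PiLp.norm_single, Real.norm_eq_abs]
      rw [abs_one, mul_one, mul_one, sq_abs, sq_abs]
      simp [Real.sin_sq_add_cos_sq]
    have h2 := norm_nonneg (Real.sin t • e i + Real.cos t • e i1)
    nlinarith
  have hcont : ∀ i : Fin n × Fin 2, Continuous fun t : ℝ => Real.sin t • e i + Real.cos t • e i1 := by
    intro i; fun_prop
  have hderiv : ∀ i : Fin n × Fin 2, HasDerivAt (fun t : ℝ => Real.sin t • e i + Real.cos t • e i1)
      (e i) 0 := by
    intro i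
    have h1 := (Real.hasDerivAt_sin 0).smul_const (e i)
    have h2 := (Real.hasDerivAt_cos 0).smul_const (e i1)
    have h3 := h1.fun_add h2
    simpa using h3
  have hp0 : ∀ i : Fin n × Fin 2, Real.sin 0 • e i + Real.cos 0 • e i1 = p := by
    intro i; simp [hp]
  have hphip : phi hn p = p := by
    rw [hphi, hp]
    have : (e i1) i0 = 0 := by simp [he, hi01]
    rw [this]; simp
  -- directions other than `x₁, y₁`
  have hdir : ∀ i : Fin n × Fin 2, i ≠ i0 → i ≠ i1 → fderiv ℝ F p (e i) = 0 := by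
    intro i h0 h1
    have h2 : ∀ t : ℝ, phi hn (Real.sin t • e i + Real.cos t • e i1) =
        Real.sin t • e i + Real.cos t • e i1 := by
      intro t
      rw [hphi]
      have : (Real.sin t • e i + Real.cos t • e i1) i0 = 0 := by
        simp [he, hi01, h0.symm]
      rw [this]; simp
    have h3 := deriv_zero_of_const hFd (c := fun t => Real.sin t • e i + Real.cos t • e i1)
      (v := e i) (a := -1) (b := 1) (by norm_num) (by norm_num) (hderiv i) (by
        intro t _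
        have := hconst _ (hcont i) (hnorm i h1) t 0
        rw [h2, h2] at this
        exact this)
    rw [hp0 i] at h3
    exact h3
  have hcoord : ∀ t : ℝ, (Real.sin t • e i0 + Real.cos t • e i1) i0 = Real.sin t := by
    intro t
    simp [he, hi01]
  have hFp : ∀ t : ℝ, F (phi hn (Real.sin t • e i0 + Real.cos t • e i1)) = F p := by
    intro t
    have := hconst _ (hcont i0) (hnorm i0 hi01) t 0
    rw [this, hp0, hphip]
  have hplus : fderiv ℝ F p (e i0 + e i1) = 0 := by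
    have hc : HasDerivAt (fun t : ℝ => (Real.sin t • e i0 + Real.cos t • e i1) + Real.sin t • e i1)
        (e i0 + e i1) 0 := by
      have h1 := (Real.hasDerivAt_sin 0).smul_const (e i1)
      simpa using (hderiv i0).fun_add h1
    have hc0 : (Real.sin 0 • e i0 + Real.cos 0 • e i1) + Real.sin 0 • e i1 = p := by simp [hp]
    have h3 := deriv_zero_of_const hFd (a := 0) (b := 1) (by norm_num) (by norm_num) hc (by
        intro t ht
        rw [hc0]
        have h4 := hFp t
        rw [hphi, hcoord, abs_of_nonneg (Real.sin_nonneg_of_nonneg_of_le_pi ht.1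
          (by have := Real.pi_gt_three; linarith [ht.2]))] at h4
        exact h4)
    rw [hc0] at h3
    exact h3
  have hminus : fderiv ℝ F p (e i0 - e i1) = 0 := by
    have hc : HasDerivAt (fun t : ℝ => (Real.sin t • e i0 + Real.cos t • e i1) - Real.sin t • e i1)
        (e i0 - e i1) 0 := by
      have h1 := (Real.hasDerivAt_sin 0).smul_const (e i1)
      simpa using (hderiv i0).fun_sub h1
    have hc0 : (Real.sin 0 • e i0 + Real.cos 0 • e i1) - Real.sin 0 • e i1 = p := by simp [hp]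
    have h3 := deriv_zero_of_const hFd (a := -1) (b := 0) (by norm_num) (by norm_num) hc (by
        intro t ht
        rw [hc0]
        have h4 := hFp t
        rw [hphi, hcoord, abs_of_nonpos (Real.sin_nonpos_of_nonpos_of_neg_pi_le ht.2
          (by have := Real.pi_gt_three; linarith [ht.1])), neg_smul, ← sub_eq_add_neg] at h4
        exact h4)
    rw [hc0] at h3
    exact h3
  have hzero : fderiv ℝ F p = 0 := by
    rw [map_add] at hplus
    rw [map_sub] at hminus
    have h0 : fderiv ℝ F p (e i0) = 0 := by linarith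
    have h1 : fderiv ℝ F p (e i1) = 0 := by linarith
    have hall : ∀ i, fderiv ℝ F p (e i) = 0 := by
      intro i
      by_cases hi0' : i = i0
      · rw [hi0']; exact h0
      · by_cases hi1' : i = i1
        · rw [hi1']; exact h1
        · exact hdir i hi0' hi1'
    apply ContinuousLinearMap.coe_injective
    apply (EuclideanSpace.basisFun (Fin n × Fin 2) ℝ).toBasis.ext
    intro i
    have := hall i
    simpa [he] using this
  -- the value at `p` is nonzero
  set v : E n := s⁻¹ • ψ.symm p with hv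
  have hv0 : v ≠ 0 := by
    intro h0
    have hF0 : F p = 0 := by
      show (‖v‖ ^ 2) ^ n = 0
      rw [h0]; simp; omega
    have h1 := hFp (Real.pi / 2)
    rw [hF0] at h1
    have h2 : s⁻¹ • ψ.symm (phi hn (Real.sin (Real.pi / 2) • e i0 + Real.cos (Real.pi / 2) • e i1)) = 0 := by
      have h3 : (‖s⁻¹ • ψ.symm (phi hn (Real.sin (Real.pi / 2) • e i0 +
        Real.cos (Real.pi / 2) • e i1))‖ ^ 2) ^ n = 0 := h1
      have h4 := pow_eq_zero_iff (by omega : n ≠ 0) |>.mp h3
      have h5 := pow_eq_zero_iff (two_ne_zero) |>.mp h4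
      exact norm_eq_zero.mp h5
    have h6 : ψ.symm (phi hn (Real.sin (Real.pi / 2) • e i0 + Real.cos (Real.pi / 2) • e i1)) =
        ψ.symm p := by
      rw [hv] at h0
      have e1 := (smul_eq_zero_iff_right (inv_ne_zero hs)).mp h0
      have e2 := (smul_eq_zero_iff_right (inv_ne_zero hs)).mp h2
      rw [e1, e2]
    have h7 := ψ.symm.injective h6
    rw [← hphip] at h7
    have h8 := (phi hn).injective h7
    have h9 := congrArg (fun z : E n => z i0) h8
    simp only at h9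
    rw [hcoord, Real.sin_pi_div_two] at h9
    have h10 : p i0 = 0 := by simp [hp, he, hi01]
    rw [h10] at h9
    exact one_ne_zero h9
  -- radial curve
  have hw : HasDerivAt (fun t : ℝ => ψ (s • ((1 + t) • v))) (fderiv ℝ ψ (s • ((1 + 0 : ℝ) • v)) (s • v)) 0 := by
    have h1 : HasDerivAt (fun t : ℝ => s • ((1 + t) • v)) (s • v) 0 := by
      have h2 : HasDerivAt (fun t : ℝ => 1 + t) 1 0 := by
        simpa using (hasDerivAt_id (0 : ℝ)).const_add 1
      have h3 := (h2.smul_const v).fun_const_smul s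
      simpa using h3
    exact ((hψ.1.differentiable (by simp)) _).hasFDerivAt.comp_hasDerivAt 0 h1
  have hw0 : ψ (s • ((1 + 0 : ℝ) • v)) = p := by
    rw [hv]; simp [smul_smul, hs]
  have h1 : HasDerivAt (fun t : ℝ => F (ψ (s • ((1 + t) • v)))) 0 0 := by
    have h2 := (hFd (ψ (s • ((1 + 0 : ℝ) • v)))).hasFDerivAt.comp_hasDerivAt 0 hw
    rw [hw0, hzero, zero_apply] at h2
    exact h2
  have h2 : (fun t : ℝ => F (ψ (s • ((1 + t) • v)))) = fun t : ℝ => ((1 + t) ^ 2) ^ n * (‖v‖ ^ 2) ^ n := by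
    ext t
    show (‖s⁻¹ • ψ.symm (ψ (s • ((1 + t) • v)))‖ ^ 2) ^ n = _
    rw [Equiv.symm_apply_apply, smul_smul, inv_mul_cancel₀ hs, one_smul, norm_smul,
      Real.norm_eq_abs, mul_pow, sq_abs, mul_pow]
  rw [h2] at h1
  have h3 : HasDerivAt (fun t : ℝ => ((1 + t) ^ 2) ^ n * (‖v‖ ^ 2) ^ n) (2 * n * (‖v‖ ^ 2) ^ n) 0 := by
    have e1 : HasDerivAt (fun t : ℝ => 1 + t) 1 0 := by
      simpa using (hasDerivAt_id (0 : ℝ)).const_add 1
    have e2 := ((e1.fun_pow 2).fun_pow n).mul_const ((‖v‖ ^ 2) ^ n)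
    refine e2.congr_deriv ?_
    simp only [add_zero, one_pow, mul_one, Nat.cast_ofNat]
    ring
  have h4 := h1.unique h3
  have h5 : (0 : ℝ) < 2 * n * (‖v‖ ^ 2) ^ n := by
    have : 0 < ‖v‖ := norm_pos_iff.mpr hv0
    have : (0 : ℝ) < n := by exact_mod_cast hn
    positivity
  linarith

theorem main (hn : 0 < n) (hNS : NS hn) :
    IsNormalisedCapacity hn (cap (n := n)) ∧ PreservesSmall cap (phi hn) ∧
    ∃ V : Set (E n), IsOpen V ∧ cap (phi hn '' V) ≠ cap V := by
  refine ⟨cap_normalised hn hNS, ?_, V0 n, isOpen_V0, ?_⟩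
  · intro x
    refine ⟨ball x 1, ball_mem_nhds x one_pos, fun V hV hVo => ?_⟩
    have hb : Bornology.IsBounded V := isBounded_ball.subset hV
    have hb' : Bornology.IsBounded (phi hn '' V) := by
      have hc : IsCompact (phi hn '' (closedBall x 1)) :=
        (isCompact_closedBall x 1).image (phi hn).continuous
      exact hc.isBounded.subset (image_mono (hV.trans ball_subset_closedBall))
    rw [cap_of_not_big (not_big_of_bounded hn hb), cap_of_not_big (not_big_of_bounded hn hb'),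
      width_phi hn hVo]
  · have h1 : Big (V0 n) := ⟨1, Equiv.refl _, one_ne_zero, IsSymplecto.refl, by simp⟩
    rw [cap_of_big h1, cap_of_not_big (not_big_phi hn), width_phi hn isOpen_V0]
    exact ((width_V0 hn).trans_lt ENNReal.ofReal_lt_top).ne

/-- The answer to Q1 is negative. -/
theorem result :
    ¬ ∀ (n : ℕ) (hn : 0 < n) (c : Set (E n) → ℝ≥0∞), IsNormalisedCapacity hn c →
        ∀ φ : E n ≃ₜ E n, PreservesSmall c φ →
          ∀ V : Set (E n), IsOpen V → c (φ '' V) = c V := by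
  intro h
  obtain ⟨h1, h2, V, h3, h4⟩ := main (n := 1) one_pos NS_one
  exact h4 (h 1 one_pos cap h1 (phi one_pos) h2 V h3)

end Pool.Agent.Results.MP_cf1990_gt.Disproof
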